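import Pool.Agent.Y922.KB.Stm

set_option autoImplicit false

/-!
Project KB of helper922 (MP_ccab6c_an): the supremum of the admissible radii (helper41).
-/

namespace Pool.Agent.Y41.KB

open Complex Metric MeasureTheory Set Pool.Agent.Y922.KB
open scoped Real

theorem adm_nonneg (p : ℝ) : 0 ≤ sSup (Adm p) := Real.sSup_nonneg fun _ h => h.1

theorem adm_bdd (p : ℝ) : BddAbove (Adm p) := ⟨1, fun _ h => h.2.1.le⟩

theorem t_RATE : S_RATE := by
  rintro ⟨C0, hC0, hconc⟩
  refine ⟨2 * (C0 + 1), by positivity, fun p hp => ?_⟩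
  set C : ℝ := 2 * (C0 + 1) with hC
  have hp0 : 0 < p := by linarith
  set q : ℝ := p ^ (-(1 / 3) : ℝ) with hq
  have hq0 : 0 < q := Real.rpow_pos_of_pos hp0 _
  have hq3 : q ^ 3 * p = 1 := by
    have h1 : q ^ 3 = p ^ (-1 : ℝ) := by
      rw [hq, ← Real.rpow_natCast, ← Real.rpow_mul hp0.le]
      norm_num
    rw [h1, Real.rpow_neg_one, inv_mul_cancel₀ hp0.ne']
  have hC3 : 8 * C0 ≤ C ^ 3 := by
    rw [hC]
    have h1 : 1 ≤ (C0 + 1) ^ 2 := by nlinarith
    nlinarith [mul_nonneg hC0.le (by linarith : (0:ℝ) ≤ (C0 + 1) ^ 2 - 1)]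
  by_cases h1 : 1 ≤ C * q
  · exact (by linarith : 1 - C * q ≤ 0).trans (adm_nonneg p)
  push Not at h1
  have hCq : 0 < C * q := by positivity
  set ε : ℝ := min (1 / 2) (C * q) with hε
  have hε0 : 0 < ε := lt_min (by norm_num) hCq
  have hε1 : ε ≤ 1 / 2 := min_le_left _ _
  have hε2 : ε ≤ C * q := min_le_right _ _
  have hε3 : C0 / ε ^ 3 ≤ p := by
    rw [div_le_iff₀ (by positivity)]
    rcases min_choice (1 / 2 : ℝ) (C * q) with h2 | h2
    · rw [hε, h2]
      -- `p > C ^ 3`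
      have h3 : (C * q) ^ 3 < 1 := pow_lt_one₀ hCq.le h1 (by norm_num)
      have h4 : C ^ 3 < p := by
        have h5 : C ^ 3 * (q ^ 3 * p) < 1 * p := by
          rw [← mul_assoc, ← mul_pow]
          exact mul_lt_mul_of_pos_right h3 hp0
        rw [hq3, mul_one, one_mul] at h5
        exact h5
      norm_num
      linarith
    · rw [hε, h2, mul_pow]
      have h5 : p * (C ^ 3 * q ^ 3) = C ^ 3 * (q ^ 3 * p) := by ring
      rw [h5, hq3, mul_one]
      linarith
  have hmem : 1 - ε ∈ Adm p := by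
    refine ⟨by linarith, by linarith, fun f g hf hg hfg => ?_⟩
    exact hconc ε p f g hε0 hε1 hε3 hf hg fun z hz => hfg z hz.1 hz.2
  exact (by linarith : 1 - C * q ≤ 1 - ε).trans (le_csSup (adm_bdd p) hmem)

end Pool.Agent.Y41.KB
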